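import Pool.Agent.U161.DG.Sum

set_option autoImplicit false

/-!
# The moments of all orders determine the weights

Helper file for `MP_e16cda_ag`, Q2.
-/

open Finset MvPolynomial MeasureTheory

namespace Pool.Agent.U161.DG

variable {g : ℕ}

/-- the Haar probability measure of the circle, as in Mathlib's file on multivariate Fourier series -/
noncomputable local instance : MeasureSpace UnitAddCircle := ⟨AddCircle.haarAddCircle⟩

local instance : Measure.IsAddHaarMeasure (volume : Measure UnitAddCircle) :=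
  inferInstanceAs (Measure.IsAddHaarMeasure AddCircle.haarAddCircle)

local instance : IsProbabilityMeasure (volume : Measure UnitAddCircle) :=
  inferInstanceAs (IsProbabilityMeasure AddCircle.haarAddCircle)

/-- uniqueness of absolutely convergent Fourier series in several variables -/
theorem fourier_unique {q : (Fin g → ℤ) → ℂ} (hq : Summable (fun n => ‖q n‖))
    (h : ∀ x : UnitAddTorus (Fin g), ∑' n, q n * UnitAddTorus.mFourier n x = 0) (n₀ : Fin g → ℤ) :
    q n₀ = 0 := by
  have h1 : Summable (fun n => q n • (UnitAddTorus.mFourier n : C(UnitAddTorus (Fin g), ℂ))) := by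
    apply Summable.of_norm
    simpa only [norm_smul, UnitAddTorus.mFourier_norm, mul_one] using hq
  have h2 : HasSum (fun n => q n • (UnitAddTorus.mFourier n : C(UnitAddTorus (Fin g), ℂ))) 0 := by
    have h3 := h1.hasSum
    have h4 : (∑' n, q n • (UnitAddTorus.mFourier n : C(UnitAddTorus (Fin g), ℂ))) = 0 := by
      ext x
      have h5 := (ContinuousMap.evalCLM ℂ x).hasSum h3
      have h6 := h5.tsum_eq
      simp only [map_smul, smul_eq_mul] at h6
      rw [ContinuousMap.zero_apply, ← h x]
      exact h6.symm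
    rwa [h4] at h3
  have h7 := (orthonormal_iff_ite.1 (UnitAddTorus.orthonormal_mFourier (d := Fin g))) n₀
  have h8 := ((innerSL ℂ (UnitAddTorus.mFourierLp 2 n₀)).comp
    (ContinuousMap.toLp (E := ℂ) 2 _ ℂ)).hasSum h2
  simp only [map_smul, ContinuousLinearMap.comp_apply, innerSL_apply_apply, h7, map_zero,
    smul_eq_mul, mul_ite, mul_one, mul_zero] at h8
  have h9 := hasSum_ite_eq n₀ (q n₀)
  have h10 : HasSum (fun n => if n₀ = n then q n else 0) (q n₀) := by
    refine h9.congr_fun fun n => ?_
    by_cases hn : n = n₀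
    · subst hn
      simp
    · rw [if_neg hn, if_neg (Ne.symm hn)]
  exact h10.unique h8

/-- If all moments of `q` vanish then the Laplace transform of `q` vanishes. -/
theorem laplace_zero {q : (Fin g → ℤ) → ℂ}
    (hq : ∀ C : ℝ, Summable (fun n => Real.exp (C * nm n) * ‖q n‖))
    (hm : ∀ P : MvPolynomial (Fin g) ℂ, ∑' n, eval (fun i => (n i : ℂ)) P * q n = 0)
    (t : Fin g → ℂ) : ∑' n, q n * Complex.exp (∑ i, (n i : ℂ) * t i) = 0 := by
  set τ : ℝ := ∑ i, ‖t i‖ with hτ
  have hτ0 : 0 ≤ τ := sum_nonneg fun _ _ => norm_nonneg _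
  have hle : ∀ n : Fin g → ℤ, ‖∑ i, (n i : ℂ) * t i‖ ≤ τ * nm n := by
    intro n
    calc ‖∑ i, (n i : ℂ) * t i‖ ≤ ∑ i, ‖(n i : ℂ) * t i‖ := norm_sum_le _ _
      _ ≤ ∑ i, nm n * ‖t i‖ := by
        refine sum_le_sum fun i _ => ?_
        rw [norm_mul, Complex.norm_intCast]
        exact mul_le_mul_of_nonneg_right (abs_le_nm n i) (norm_nonneg _)
      _ = τ * nm n := by rw [← mul_sum, mul_comm]
  have hexp : ∀ n : Fin g → ℤ, HasSum (fun k : ℕ => q n * ((∑ i, (n i : ℂ) * t i) ^ k / k.factorial))
      (q n * Complex.exp (∑ i, (n i : ℂ) * t i)) := by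
    intro n
    rw [Complex.exp_eq_exp_ℂ]
    exact (NormedSpace.expSeries_div_hasSum_exp (𝔸 := ℂ) _).mul_left _
  have hsum : Summable (fun x : (Fin g → ℤ) × ℕ =>
      q x.1 * ((∑ i, (x.1 i : ℂ) * t i) ^ x.2 / x.2.factorial)) := by
    apply Summable.of_norm
    have h1 : Summable (fun x : (Fin g → ℤ) × ℕ =>
        ‖q x.1‖ * ((τ * nm x.1) ^ x.2 / x.2.factorial)) := by
      rw [summable_prod_of_nonneg (fun x => by
        have := nm_nonneg x.1
        positivity)]
      constructor
      · intro n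
        exact ((Real.summable_pow_div_factorial (τ * nm n)).mul_left ‖q n‖)
      · refine (hq τ).congr fun n => ?_
        simp only
        rw [tsum_mul_left]
        have h2 : ∑' k : ℕ, (τ * nm n) ^ k / (k.factorial : ℝ) = Real.exp (τ * nm n) := by
          rw [Real.exp_eq_exp_ℝ]
          exact (NormedSpace.expSeries_div_hasSum_exp (𝔸 := ℝ) (τ * nm n)).tsum_eq
        rw [h2, mul_comm]
    refine Summable.of_nonneg_of_le (fun _ => norm_nonneg _) (fun x => ?_) h1
    rw [norm_mul, norm_div, norm_pow, Complex.norm_natCast]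
    refine mul_le_mul_of_nonneg_left ?_ (norm_nonneg _)
    exact div_le_div_of_nonneg_right (pow_le_pow_left₀ (norm_nonneg _) (hle _) _)
      (Nat.cast_nonneg _)
  have h1 : ∑' n, q n * Complex.exp (∑ i, (n i : ℂ) * t i) =
      ∑' n : Fin g → ℤ, ∑' k : ℕ, q n * ((∑ i, (n i : ℂ) * t i) ^ k / k.factorial) :=
    tsum_congr fun n => (hexp n).tsum_eq.symm
  have h1' : ∑' n : Fin g → ℤ, ∑' k : ℕ, q n * ((∑ i, (n i : ℂ) * t i) ^ k / k.factorial) =
      ∑' k : ℕ, ∑' n : Fin g → ℤ, q n * ((∑ i, (n i : ℂ) * t i) ^ k / k.factorial) :=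
    (Summable.tsum_comm (f := fun (n : Fin g → ℤ) (k : ℕ) =>
      q n * ((∑ i, (n i : ℂ) * t i) ^ k / k.factorial)) hsum).symm
  rw [h1, h1']
  have h2 : ∀ k : ℕ, ∑' n : Fin g → ℤ, q n * ((∑ i, (n i : ℂ) * t i) ^ k / k.factorial) = 0 := by
    intro k
    have h3 := hm ((∑ i, X i * C (t i)) ^ k)
    have h4 : ∀ n : Fin g → ℤ, eval (fun i => (n i : ℂ)) ((∑ i, X i * C (t i)) ^ k) * q n =
        (k.factorial : ℂ) * (q n * ((∑ i, (n i : ℂ) * t i) ^ k / k.factorial)) := by
      intro n
      have h5 : (k.factorial : ℂ) ≠ 0 := by exact_mod_cast k.factorial_ne_zero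
      simp only [map_pow, map_sum, map_mul, eval_X, eval_C]
      field_simp
    simp only [h4] at h3
    rw [tsum_mul_left] at h3
    have h5 : (k.factorial : ℂ) ≠ 0 := by exact_mod_cast k.factorial_ne_zero
    exact (mul_eq_zero.1 h3).resolve_left h5
  simp only [h2, tsum_zero]

theorem gaussian_eq {u : Fin g → ℂ} {B : Matrix (Fin g) (Fin g) ℂ} (n : Fin g → ℤ) :
    gaussian u B n = (theta u B)⁻¹ * weight u B n := by
  rw [gaussian, div_eq_mul_inv, mul_comm]

theorem summable_gaussian {B : Matrix (Fin g) (Fin g) ℂ} (hB : IsParameter B) (u : Fin g → ℂ)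
    (C : ℝ) : Summable (fun n => Real.exp (C * nm n) * ‖gaussian u B n‖) := by
  refine ((summable_exp_weight hB u C).mul_left ‖(theta u B)⁻¹‖).congr fun n => ?_
  rw [gaussian_eq, norm_mul]
  ring

theorem summable_moment' {B : Matrix (Fin g) (Fin g) ℂ} (hB : IsParameter B) (u : Fin g → ℂ)
    (α : Fin g → ℕ) : Summable (fun n => (∏ i, (n i : ℂ) ^ α i) * gaussian u B n) := by
  refine ((summable_moment hB u α).of_norm.mul_left (theta u B)⁻¹).congr fun n => ?_
  rw [gaussian_eq]
  ring

theorem hasSum_eval {B : Matrix (Fin g) (Fin g) ℂ} (hB : IsParameter B) (u : Fin g → ℂ)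
    (P : MvPolynomial (Fin g) ℂ) :
    HasSum (fun n : Fin g → ℤ => eval (fun i => (n i : ℂ)) P * gaussian u B n)
      (∑ d ∈ P.support, P.coeff d * moment u B d) := by
  have h : ∀ n : Fin g → ℤ, eval (fun i => (n i : ℂ)) P * gaussian u B n =
      ∑ d ∈ P.support, P.coeff d * ((∏ i, (n i : ℂ) ^ d i) * gaussian u B n) := by
    intro n
    rw [eval_eq', sum_mul]
    exact sum_congr rfl fun d _ => by ring
  simp only [h]
  exact hasSum_sum fun d _ => (summable_moment' hB u d).hasSum.mul_left _

/-- Two discrete Gaussians with the same moments of all orders are equal. -/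
theorem eq_of_moments {u u' : Fin g → ℂ} {B B' : Matrix (Fin g) (Fin g) ℂ} (hB : IsParameter B)
    (hB' : IsParameter B') (h : ∀ α, moment u B α = moment u' B' α) :
    gaussian u B = gaussian u' B' := by
  set q : (Fin g → ℤ) → ℂ := fun n => gaussian u B n - gaussian u' B' n with hqdef
  have hq : ∀ C : ℝ, Summable (fun n => Real.exp (C * nm n) * ‖q n‖) := by
    intro C
    refine Summable.of_nonneg_of_le (fun n => by positivity) (fun n => ?_)
      ((summable_gaussian hB u C).add (summable_gaussian hB' u' C))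
    rw [← mul_add]
    exact mul_le_mul_of_nonneg_left (norm_sub_le _ _) (Real.exp_pos _).le
  have hm : ∀ P : MvPolynomial (Fin g) ℂ, ∑' n, eval (fun i => (n i : ℂ)) P * q n = 0 := by
    intro P
    have h1 := (hasSum_eval hB u P).sub (hasSum_eval hB' u' P)
    have h2 : ∑ d ∈ P.support, P.coeff d * moment u B d -
        ∑ d ∈ P.support, P.coeff d * moment u' B' d = 0 := by
      rw [sub_eq_zero]
      exact sum_congr rfl fun d _ => by rw [h]
    rw [h2] at h1
    refine (h1.congr_fun fun n => ?_).tsum_eq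
    rw [hqdef]
    ring
  have hq0 : Summable (fun n => ‖q n‖) := by
    refine (hq 0).congr fun n => ?_
    rw [zero_mul, Real.exp_zero, one_mul]
  funext n₀
  have key := fourier_unique hq0 (fun x => ?_) n₀
  · exact sub_eq_zero.1 key
  · choose y hy using fun i => QuotientAddGroup.mk_surjective (x i)
    have h1 := laplace_zero hq hm (fun i => 2 * Real.pi * Complex.I * y i)
    rw [← h1]
    refine tsum_congr fun n => ?_
    congr 1
    rw [Complex.exp_sum]
    change ∏ i, fourier (n i) (x i) = _
    refine prod_congr rfl fun i _ => ?_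
    rw [← hy i]
    have h2 := fourier_coe_apply (T := (1 : ℝ)) (n := n i) (x := y i)
    refine h2.trans ?_
    congr 1
    push_cast
    ring

end Pool.Agent.U161.DG
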