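import Mathlib

set_option autoImplicit false

/-!
# Moment sequences with recursions of finite type

Helper file for `MP_e16cda_ag`, Q2.
-/

open Finset MvPolynomial

namespace Pool.Agent.U161.DG

variable {g : ℕ}

/-- the order of a multi-index -/
def deg (δ : Fin g → ℕ) : ℕ := ∑ k, δ k

/-- the value of the functional `m ⊗ m` on the polynomial `(x + y) ^ γ * (x i - y i) ^ (2 j)` -/
def T {A : Type*} [CommRing A] (m : (Fin g → ℕ) → A) (i : Fin g) (j : ℕ) (γ : Fin g → ℕ) : A :=
  ∑ a ∈ Fintype.piFinset (fun k => range (γ k + 1)), ∑ b ∈ range (2 * j + 1),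
    ((∏ k, (γ k).choose (a k) : ℕ) : A) * ((2 * j).choose b : ℕ) * (-1) ^ (2 * j - b) *
      m (a + Pi.single i b) * m (γ - a + Pi.single i (2 * j - b))

lemma T_map {A B : Type*} [CommRing A] [CommRing B] (φ : A →+* B) (m : (Fin g → ℕ) → A)
    (i : Fin g) (j : ℕ) (γ : Fin g → ℕ) : φ (T m i j γ) = T (fun α => φ (m α)) i j γ := by
  simp only [T, map_sum, map_mul, map_pow, map_neg, map_one, map_natCast]

lemma deg_add (a b : Fin g → ℕ) : deg (a + b) = deg a + deg b := by
  simp [deg, sum_add_distrib]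

lemma deg_single (i : Fin g) (b : ℕ) : deg (Pi.single i b) = b := by
  simp [deg]

lemma deg_sub_add {a γ : Fin g → ℕ} (h : a ≤ γ) : deg (γ - a) + deg a = deg γ := by
  rw [← deg_add, tsub_add_cancel_of_le h]

lemma mem_pi {γ a : Fin g → ℕ} :
    a ∈ Fintype.piFinset (fun k => range (γ k + 1)) ↔ a ≤ γ := by
  rw [Fintype.mem_piFinset, Pi.le_def]
  simp

lemma deg_lt {a γ : Fin g → ℕ} (h : a ≤ γ) (hne : a ≠ γ) : deg a < deg γ := by
  have h1 := deg_sub_add h
  have h2 : deg (γ - a) ≠ 0 := by
    intro h3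
    apply hne
    have h4 : γ - a = 0 := by
      funext k
      have := (sum_eq_zero_iff.1 h3) k (mem_univ k)
      exact this
    have h5 := tsub_add_cancel_of_le h
    rw [h4, zero_add] at h5
    exact h5
  omega

lemma deg_eq_zero {a : Fin g → ℕ} (h : deg a = 0) : a = 0 := by
  funext k
  exact (sum_eq_zero_iff.1 h) k (mem_univ k)

/-- the part of a sequence of order less than `N` -/
def low {A : Type*} [CommRing A] (N : ℕ) (m : (Fin g → ℕ) → A) : (Fin g → ℕ) → A :=
  fun α => if deg α < N then m α else 0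

lemma T_low_lt {A : Type*} [CommRing A] {N : ℕ} (m : (Fin g → ℕ) → A) (i : Fin g) {j : ℕ}
    {γ : Fin g → ℕ} (h : deg γ + 2 * j < N) : T m i j γ = T (low N m) i j γ := by
  unfold T
  refine sum_congr rfl fun a ha => sum_congr rfl fun b hb => ?_
  rw [mem_pi] at ha
  have hb' : b ≤ 2 * j := Nat.lt_succ_iff.1 (mem_range.1 hb)
  have h1 := deg_sub_add ha
  have e1 : low N m (a + Pi.single i b) = m (a + Pi.single i b) := by
    unfold low
    rw [if_pos]
    rw [deg_add, deg_single]
    omega
  have e2 : low N m (γ - a + Pi.single i (2 * j - b)) = m (γ - a + Pi.single i (2 * j - b)) := by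
    unfold low
    rw [if_pos]
    rw [deg_add, deg_single]
    omega
  rw [e1, e2]

lemma sum_ite2 {A : Type*} [AddCommMonoid A] {α β : Type*} [DecidableEq α] [DecidableEq β]
    (s : Finset α) (t : Finset β) (a₀ : α) (b₀ : β) (ha : a₀ ∈ s) (hb : b₀ ∈ t) (x : A) :
    ∑ a ∈ s, ∑ b ∈ t, (if a = a₀ ∧ b = b₀ then x else 0) = x := by
  rw [sum_eq_single a₀, sum_eq_single b₀]
  · simp
  · intro b _ hb
    rw [if_neg (fun h => hb h.2)]
  · intro h
    exact absurd hb h
  · intro a _ ha
    exact sum_eq_zero fun b _ => if_neg fun h => ha h.1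
  · intro h
    exact absurd ha h

lemma T_low_eq {A : Type*} [CommRing A] {N : ℕ} (m : (Fin g → ℕ) → A) (h0 : m 0 = 1) (i : Fin g)
    {j : ℕ} (hj : 0 < j) {γ : Fin g → ℕ} (h : deg γ + 2 * j = N) :
    T m i j γ = T (low N m) i j γ + 2 * m (γ + Pi.single i (2 * j)) := by
  classical
  have key : ∀ a ∈ Fintype.piFinset (fun k => range (γ k + 1)), ∀ b ∈ range (2 * j + 1),
      ((∏ k, (γ k).choose (a k) : ℕ) : A) * ((2 * j).choose b : ℕ) * (-1) ^ (2 * j - b) *
        m (a + Pi.single i b) * m (γ - a + Pi.single i (2 * j - b)) =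
      ((∏ k, (γ k).choose (a k) : ℕ) : A) * ((2 * j).choose b : ℕ) * (-1) ^ (2 * j - b) *
        low N m (a + Pi.single i b) * low N m (γ - a + Pi.single i (2 * j - b)) +
      (if a = γ ∧ b = 2 * j then m (γ + Pi.single i (2 * j)) else 0) +
      (if a = 0 ∧ b = 0 then m (γ + Pi.single i (2 * j)) else 0) := by
    intro a ha b hb
    rw [mem_pi] at ha
    have hb' : b ≤ 2 * j := Nat.lt_succ_iff.1 (mem_range.1 hb)
    have h1 := deg_sub_add ha
    have d1 : deg (a + Pi.single i b) = deg a + b := by rw [deg_add, deg_single]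
    have d2 : deg (γ - a + Pi.single i (2 * j - b)) = deg (γ - a) + (2 * j - b) := by
      rw [deg_add, deg_single]
    by_cases c1 : a = γ ∧ b = 2 * j
    · obtain ⟨rfl, rfl⟩ := c1
      have c2 : ¬ (a = 0 ∧ 2 * j = 0) := fun h => by omega
      rw [if_pos ⟨rfl, rfl⟩, if_neg c2]
      have e1 : low N m (a + Pi.single i (2 * j)) = 0 := by
        unfold low
        rw [if_neg]
        rw [d1]
        omega
      rw [e1]
      have e2 : a - a + Pi.single i (2 * j - 2 * j) = (0 : Fin g → ℕ) := by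
        rw [tsub_self, tsub_self, Pi.single_zero, add_zero]
      rw [e2, h0]
      simp
    · rw [if_neg c1]
      by_cases c2 : a = 0 ∧ b = 0
      · obtain ⟨rfl, rfl⟩ := c2
        rw [if_pos ⟨rfl, rfl⟩]
        have e1 : low N m (γ - 0 + Pi.single i (2 * j - 0)) = 0 := by
          unfold low
          rw [if_neg]
          rw [d2]
          have : deg (γ - 0) = deg γ := by rw [tsub_zero]
          omega
        rw [e1]
        have e2 : (0 : Fin g → ℕ) + Pi.single i 0 = 0 := by
          rw [Pi.single_zero, add_zero]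
        rw [e2, h0]
        have e3 : ((-1 : A)) ^ (2 * j - 0) = 1 := by
          rw [Nat.sub_zero, pow_mul]
          simp
        rw [e3]
        simp
      · rw [if_neg c2]
        have l1 : deg (a + Pi.single i b) < N := by
          rw [d1]
          by_cases ha' : a = γ
          · have : b ≠ 2 * j := fun h => c1 ⟨ha', h⟩
            rw [ha'] at h1 ⊢
            omega
          · have := deg_lt ha ha'
            omega
        have l2 : deg (γ - a + Pi.single i (2 * j - b)) < N := by
          rw [d2]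
          by_cases ha' : a = 0
          · have : b ≠ 0 := fun h => c2 ⟨ha', h⟩
            omega
          · have : deg a ≠ 0 := fun h => ha' (deg_eq_zero h)
            omega
        have e1 : low N m (a + Pi.single i b) = m (a + Pi.single i b) := if_pos l1
        have e2 : low N m (γ - a + Pi.single i (2 * j - b)) =
          m (γ - a + Pi.single i (2 * j - b)) := if_pos l2
        rw [e1, e2, add_zero, add_zero]
  unfold T
  rw [sum_congr rfl fun a ha => sum_congr rfl fun b hb => key a ha b hb]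
  simp only [sum_add_distrib]
  rw [sum_ite2 _ _ γ (2 * j) (mem_pi.2 le_rfl) (mem_range.2 (by omega)),
    sum_ite2 _ _ 0 0 (mem_pi.2 fun _ => Nat.zero_le _) (mem_range.2 (by omega))]
  ring

/-- the variables: the small moments and the coefficients of the relations -/
abbrev Var (J : Fin g → ℕ) : Type := ((i : Fin g) → Fin (2 * J i)) ⊕ ((i : Fin g) × Fin (J i))

/-- the point given by a moment sequence and by the coefficients -/
def pt {J : Fin g → ℕ} (m : (Fin g → ℕ) → ℂ) (c : (i : Fin g) → Fin (J i) → ℂ) : Var J → ℂ :=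
  Sum.elim (fun δ => m fun i => δ i) (fun p => c p.1 p.2)

/-- The moment sequence satisfies the relations with the coefficients `c`. -/
def Rel (J : Fin g → ℕ) (m : (Fin g → ℕ) → ℂ) (c : (i : Fin g) → Fin (J i) → ℂ) : Prop :=
  m 0 = 1 ∧ ∀ i γ, T m i (J i) γ + ∑ j : Fin (J i), c i j * T m i j γ = 0

theorem exists_poly (J : Fin g → ℕ) (hJ : ∀ i, 0 < J i) (N : ℕ) :
    ∃ P : (Fin g → ℕ) → MvPolynomial (Var J) ℂ, ∀ m c, Rel J m c →
      ∀ δ, deg δ < N → m δ = eval (pt m c) (P δ) := by
  classical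
  induction N with
  | zero => exact ⟨fun _ => 0, fun _ _ _ δ h => absurd h (Nat.not_lt_zero _)⟩
  | succ N ih =>
    obtain ⟨P, hP⟩ := ih
    refine ⟨fun δ => if deg δ < N then P δ else
      if h : ∀ i, δ i < 2 * J i then X (Sum.inl fun i => ⟨δ i, h i⟩) else
        C (-1 / 2) * (T (low N P) (Classical.choose (not_forall.1 h))
            (J (Classical.choose (not_forall.1 h)))
            (δ - Pi.single (Classical.choose (not_forall.1 h))
              (2 * J (Classical.choose (not_forall.1 h)))) +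
          ∑ j : Fin (J (Classical.choose (not_forall.1 h))),
            X (Sum.inr ⟨Classical.choose (not_forall.1 h), j⟩) *
            T (low N P) (Classical.choose (not_forall.1 h)) j
            (δ - Pi.single (Classical.choose (not_forall.1 h))
              (2 * J (Classical.choose (not_forall.1 h))))), ?_⟩
    intro m c hR δ hδ
    by_cases h1 : deg δ < N
    · simp only [if_pos h1]
      exact hP m c hR δ h1
    · simp only [if_neg h1]
      have hN : deg δ = N := by omega
      split_ifs with h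
      · rw [eval_X]
        rfl
      · set i := Classical.choose (not_forall.1 h) with hi
        have hi2 : 2 * J i ≤ δ i := not_lt.1 (Classical.choose_spec (not_forall.1 h))
        set γ := δ - Pi.single i (2 * J i) with hγ
        have hle : Pi.single i (2 * J i) ≤ δ := by
          intro k
          by_cases hk : k = i
          · rw [hk, Pi.single_eq_same]
            exact hi2
          · rw [Pi.single_eq_of_ne hk]
            exact Nat.zero_le _
        have hδγ : γ + Pi.single i (2 * J i) = δ := tsub_add_cancel_of_le hle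
        have hdeg : deg γ + 2 * J i = N := by
          rw [← hN, ← hδγ, deg_add, deg_single]
        have hlow : (fun α => eval (pt m c) (low N P α)) = low N m := by
          funext α
          unfold low
          split_ifs with h2
          · exact (hP m c hR α h2).symm
          · exact map_zero _
        have hT : ∀ j, eval (pt m c) (T (low N P) i j γ) = T (low N m) i j γ := by
          intro j
          rw [← hlow]
          exact T_map (eval (pt m c)) _ i j γ
        have hrel := hR.2 i γ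
        rw [T_low_eq m hR.1 i (hJ i) hdeg, hδγ] at hrel
        have hsum : ∑ j : Fin (J i), c i j * T m i j γ =
            ∑ j : Fin (J i), c i j * T (low N m) i j γ := by
          refine sum_congr rfl fun j _ => ?_
          rw [T_low_lt (N := N) m i (j := j) (γ := γ) (by have := j.2; omega)]
        rw [hsum] at hrel
        rw [map_mul, map_add, map_sum, eval_C, hT]
        have hc : ∀ j : Fin (J i), eval (pt m c) (X (Sum.inr ⟨i, j⟩) * T (low N P) i j γ) =
            c i j * T (low N m) i j γ := by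
          intro j
          rw [map_mul, eval_X, hT]
          rfl
        rw [sum_congr rfl fun j _ => hc j]
        linear_combination (1 / 2 : ℂ) * hrel

theorem exists_poly_all (J : Fin g → ℕ) (hJ : ∀ i, 0 < J i) :
    ∃ P : (Fin g → ℕ) → MvPolynomial (Var J) ℂ, ∀ m c, Rel J m c →
      ∀ δ, m δ = eval (pt m c) (P δ) := by
  choose P hP using exists_poly J hJ
  exact ⟨fun δ => P (deg δ + 1) δ, fun m c hR δ => hP _ m c hR δ (Nat.lt_succ_self _)⟩

/-- Two sequences with relations of given sizes are equal if they agree up to a certain order. -/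
theorem exists_bound (J J' : Fin g → ℕ) (hJ : ∀ i, 0 < J i) (hJ' : ∀ i, 0 < J' i) :
    ∃ d : ℕ, ∀ m c m' c', Rel J m c → Rel J' m' c' → (∀ δ, deg δ ≤ d → m δ = m' δ) → m = m' := by
  obtain ⟨P, hP⟩ := exists_poly_all J hJ
  obtain ⟨P', hP'⟩ := exists_poly_all J' hJ'
  let f : (Fin g → ℕ) → MvPolynomial (Var J ⊕ Var J') ℂ := fun δ =>
    rename Sum.inl (P δ) - rename Sum.inr (P' δ)
  let I : ℕ →o Ideal (MvPolynomial (Var J ⊕ Var J') ℂ) :=
    ⟨fun d => Ideal.span {q | ∃ δ, deg δ ≤ d ∧ q = f δ}, fun a b hab =>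
      Ideal.span_mono fun q ⟨δ, h1, h2⟩ => ⟨δ, h1.trans hab, h2⟩⟩
  obtain ⟨d, hd⟩ := monotone_stabilizes_iff_noetherian.2
    (inferInstance : IsNoetherian (MvPolynomial (Var J ⊕ Var J') ℂ)
      (MvPolynomial (Var J ⊕ Var J') ℂ)) I
  refine ⟨d, fun m c m' c' hR hR' hmm => ?_⟩
  have hf : ∀ δ, eval (Sum.elim (pt m c) (pt m' c')) (f δ) = m δ - m' δ := by
    intro δ
    rw [map_sub, eval_rename, eval_rename, hP m c hR δ, hP' m' c' hR' δ]
    rfl
  have hker : I d ≤ RingHom.ker (eval (Sum.elim (pt m c) (pt m' c'))) := by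
    refine Ideal.span_le.2 ?_
    rintro q ⟨δ, h1, rfl⟩
    rw [SetLike.mem_coe, RingHom.mem_ker, hf, hmm δ h1, sub_self]
  funext δ
  have h1 : f δ ∈ I (max d (deg δ)) := Ideal.subset_span ⟨δ, le_max_right _ _, rfl⟩
  rw [← hd _ (le_max_left _ _)] at h1
  have h2 := hker h1
  rw [RingHom.mem_ker, hf] at h2
  exact sub_eq_zero.1 h2

/-- A uniform bound. -/
theorem exists_bound_all (g R : ℕ) :
    ∃ d : ℕ, ∀ (J J' : Fin g → ℕ) (m m' : (Fin g → ℕ) → ℂ) (c : (i : Fin g) → Fin (J i) → ℂ)
      (c' : (i : Fin g) → Fin (J' i) → ℂ), (∀ i, 0 < J i ∧ J i ≤ R) → (∀ i, 0 < J' i ∧ J' i ≤ R) →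
      Rel J m c → Rel J' m' c' → (∀ δ, deg δ ≤ d → m δ = m' δ) → m = m' := by
  classical
  have h : ∀ q : (Fin g → Fin (R + 1)) × (Fin g → Fin (R + 1)), ∃ d : ℕ,
      (∀ i, 0 < (q.1 i : ℕ)) → (∀ i, 0 < (q.2 i : ℕ)) →
      ∀ m c m' c', Rel (fun i => (q.1 i : ℕ)) m c → Rel (fun i => (q.2 i : ℕ)) m' c' →
        (∀ δ, deg δ ≤ d → m δ = m' δ) → m = m' := by
    intro q
    by_cases h1 : (∀ i, 0 < (q.1 i : ℕ)) ∧ (∀ i, 0 < (q.2 i : ℕ))
    · obtain ⟨d, hd⟩ := exists_bound (fun i => (q.1 i : ℕ)) (fun i => (q.2 i : ℕ)) h1.1 h1.2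
      exact ⟨d, fun _ _ => hd⟩
    · exact ⟨0, fun h2 h3 => absurd ⟨h2, h3⟩ h1⟩
  choose D hD using h
  refine ⟨univ.sup D, fun J J' m m' c c' hJ hJ' hR hR' hmm => ?_⟩
  obtain ⟨q1, rfl⟩ : ∃ q1 : Fin g → Fin (R + 1), J = fun i => (q1 i : ℕ) :=
    ⟨fun i => ⟨J i, Nat.lt_succ_of_le (hJ i).2⟩, rfl⟩
  obtain ⟨q2, rfl⟩ : ∃ q2 : Fin g → Fin (R + 1), J' = fun i => (q2 i : ℕ) :=
    ⟨fun i => ⟨J' i, Nat.lt_succ_of_le (hJ' i).2⟩, rfl⟩
  exact hD (q1, q2) (fun i => (hJ i).1) (fun i => (hJ' i).1) m c m' c' hR hR'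
    fun δ hδ => hmm δ (hδ.trans (le_sup (f := D) (mem_univ (q1, q2))))

end Pool.Agent.U161.DG
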