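import Mathlib

set_option autoImplicit false

/-!
# Complex discrete Gaussians: definitions

The same definitions as in the starting file `MP_e16cda_ag.ThreeMomentsFail`.
-/

namespace Pool.Agent.U161.DG

/-- The number `e^{2π (nᵗ u - ½ nᵗ B n)}`. -/
noncomputable def weight {g : ℕ} (u : Fin g → ℂ) (B : Matrix (Fin g) (Fin g) ℂ) (n : Fin g → ℤ) :
    ℂ :=
  Complex.exp (2 * Real.pi *
    ((∑ i, (n i : ℂ) * u i) - (1 / 2) * ∑ i, ∑ j, (n i : ℂ) * B i j * (n j : ℂ)))

/-- `B` is in `ℍ_g`: it is symmetric and its real part is positive definite. -/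
def IsParameter {g : ℕ} (B : Matrix (Fin g) (Fin g) ℂ) : Prop :=
  B.IsSymm ∧ (B.map Complex.re).PosDef

/-- The theta function `θ(u, B)`. -/
noncomputable def theta {g : ℕ} (u : Fin g → ℂ) (B : Matrix (Fin g) (Fin g) ℂ) : ℂ :=
  ∑' n : Fin g → ℤ, weight u B n

/-- The discrete Gaussian `p_{(u, B)}`, a function on `ℤ^g`. -/
noncomputable def gaussian {g : ℕ} (u : Fin g → ℂ) (B : Matrix (Fin g) (Fin g) ℂ) :
    (Fin g → ℤ) → ℂ :=
  fun n => weight u B n / theta u B

/-- The moment `m_α(u, B)`. -/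
noncomputable def moment {g : ℕ} (u : Fin g → ℂ) (B : Matrix (Fin g) (Fin g) ℂ) (α : Fin g → ℕ) :
    ℂ :=
  ∑' n : Fin g → ℤ, (∏ i, (n i : ℂ) ^ α i) * gaussian u B n

/-- Moments up to order `d` determine discrete Gaussians in dimension `g`. -/
def MomentsDetermine (g d : ℕ) : Prop :=
  ∀ (u : Fin g → ℂ) (B : Matrix (Fin g) (Fin g) ℂ) (u' : Fin g → ℂ)
    (B' : Matrix (Fin g) (Fin g) ℂ), IsParameter B → IsParameter B' → theta u B ≠ 0 →
    theta u' B' ≠ 0 → (∀ α : Fin g → ℕ, ∑ i, α i ≤ d → moment u B α = moment u' B' α) →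
    gaussian u B = gaussian u' B'

end Pool.Agent.U161.DG
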