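import Pool.Agent.U161.DG.Defs

set_option autoImplicit false

/-!
# Summability of the weights

Helper file for `MP_e16cda_ag`, Q2.
-/

open Finset

namespace Pool.Agent.U161.DG

variable {g : ℕ}

theorem summable_prod (g : ℕ) : ∀ F : Fin g → ℤ → ℝ, (∀ i, Summable (fun n => ‖F i n‖)) →
    Summable (fun n : Fin g → ℤ => ‖∏ i, F i (n i)‖) := by
  induction g with
  | zero =>
    intro F _
    exact Summable.of_finite
  | succ g ih =>
    intro F hF
    have h1 := ih (fun i => F i.succ) (fun i => hF _)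
    let e := Fin.consEquiv (fun _ : Fin (g + 1) => ℤ)
    have he : ∀ x : ℤ × (Fin g → ℤ), ∏ i, F i (e x i) = F 0 x.1 * ∏ i : Fin g, F i.succ (x.2 i) := by
      intro x
      rw [Fin.prod_univ_succ]
      simp [e]
    rw [← e.summable_iff]
    have h3 := (hF 0).mul_norm h1
    refine h3.congr fun x => ?_
    rw [Function.comp_apply, he]

theorem summable_one : Summable (fun n : ℤ => ‖Real.exp (-|(n : ℝ)|)‖) := by
  have h : Summable (fun n : ℕ => Real.exp (-(n : ℝ))) := by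
    refine (summable_geometric_of_lt_one (Real.exp_pos (-1)).le
      (Real.exp_lt_one_iff.2 neg_one_lt_zero)).congr (fun n => ?_)
    rw [← Real.exp_nat_mul]
    congr 1
    ring
  apply Summable.of_nat_of_neg
  · refine h.congr fun n => ?_
    rw [Real.norm_eq_abs, abs_of_pos (Real.exp_pos _)]
    simp
  · refine h.congr fun n => ?_
    rw [Real.norm_eq_abs, abs_of_pos (Real.exp_pos _)]
    simp

/-- the `l¹` norm -/
def nm (n : Fin g → ℤ) : ℝ := ∑ i, |(n i : ℝ)|

lemma nm_nonneg (n : Fin g → ℤ) : 0 ≤ nm n := sum_nonneg fun _ _ => abs_nonneg _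

theorem summable_nm : Summable (fun n : Fin g → ℤ => Real.exp (-nm n)) := by
  refine (summable_prod g (fun _ k => Real.exp (-|(k : ℝ)|)) (fun _ => summable_one)).congr
    fun n => ?_
  rw [← Real.exp_sum, Real.norm_eq_abs, abs_of_pos (Real.exp_pos _), sum_neg_distrib]
  rfl

/-- a lower bound for a positive definite form -/
theorem form_bound {M : Matrix (Fin g) (Fin g) ℝ} (hM : M.PosDef) :
    ∃ ε : ℝ, 0 < ε ∧ ∀ x : Fin g → ℝ, ε * (∑ i, |x i|) ^ 2 ≤ ∑ i, ∑ j, x i * M i j * x j := by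
  have hq : ∀ x : Fin g → ℝ, x ≠ 0 → 0 < ∑ i, ∑ j, x i * M i j * x j := by
    intro x hx
    have h := hM.dotProduct_mulVec_pos hx
    refine lt_of_lt_of_eq h ?_
    simp only [dotProduct, Matrix.mulVec, Pi.star_apply, star_trivial, mul_sum]
    exact sum_congr rfl fun i _ => sum_congr rfl fun j _ => by ring
  have hc : Continuous (fun x : Fin g → ℝ => ∑ i, ∑ j, x i * M i j * x j) := by
    fun_prop
  have hhom : ∀ (c : ℝ) (x : Fin g → ℝ), ∑ i, ∑ j, (c • x) i * M i j * (c • x) j =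
      c ^ 2 * ∑ i, ∑ j, x i * M i j * x j := by
    intro c x
    simp only [mul_sum, Pi.smul_apply, smul_eq_mul]
    exact sum_congr rfl fun i _ => sum_congr rfl fun j _ => by ring
  obtain ⟨δ, hδ, hδ2⟩ : ∃ δ : ℝ, 0 < δ ∧ ∀ x : Fin g → ℝ,
      δ * ‖x‖ ^ 2 ≤ ∑ i, ∑ j, x i * M i j * x j := by
    by_cases hne : (Metric.sphere (0 : Fin g → ℝ) 1).Nonempty
    · obtain ⟨y, hy, hmin⟩ := (isCompact_sphere (0 : Fin g → ℝ) 1).exists_isMinOn hne
        hc.continuousOn
      have hy0 : y ≠ 0 := by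
        rintro rfl
        simp at hy
      refine ⟨_, hq y hy0, fun x => ?_⟩
      by_cases hx : x = 0
      · subst hx
        simp
      · have hx' : 0 < ‖x‖ := norm_pos_iff.2 hx
        have h1 : ‖x‖⁻¹ • x ∈ Metric.sphere (0 : Fin g → ℝ) 1 := by
          rw [mem_sphere_zero_iff_norm, norm_smul, norm_inv, norm_norm, inv_mul_cancel₀ hx'.ne']
        have h2 := hmin h1
        simp only [Set.mem_setOf_eq] at h2
        rw [hhom] at h2
        have h3 := mul_le_mul_of_nonneg_right h2 (sq_nonneg ‖x‖)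
        refine h3.trans (le_of_eq ?_)
        field_simp
    · refine ⟨1, one_pos, fun x => ?_⟩
      have hx : x = 0 := by
        by_contra hx
        apply hne
        refine ⟨‖x‖⁻¹ • x, ?_⟩
        have hx' : 0 < ‖x‖ := norm_pos_iff.2 hx
        rw [mem_sphere_zero_iff_norm, norm_smul, norm_inv, norm_norm, inv_mul_cancel₀ hx'.ne']
      subst hx
      simp
  refine ⟨δ / (g ^ 2 + 1), by positivity, fun x => ?_⟩
  refine le_trans ?_ (hδ2 x)
  have h1 : ∑ i, |x i| ≤ g * ‖x‖ := by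
    calc ∑ i, |x i| ≤ ∑ _i : Fin g, ‖x‖ := sum_le_sum fun i _ => norm_le_pi_norm x i
      _ = g * ‖x‖ := by simp
  have h2 : (∑ i, |x i|) ^ 2 ≤ (g * ‖x‖) ^ 2 :=
    pow_le_pow_left₀ (sum_nonneg fun _ _ => abs_nonneg _) h1 2
  rw [div_mul_eq_mul_div, div_le_iff₀ (by positivity)]
  have h3 := norm_nonneg x
  have h4 : δ * (∑ i, |x i|) ^ 2 ≤ δ * (g * ‖x‖) ^ 2 := mul_le_mul_of_nonneg_left h2 hδ.le
  have h5 : 0 ≤ δ * ‖x‖ ^ 2 := by positivity
  nlinarith

theorem norm_weight (u : Fin g → ℂ) (B : Matrix (Fin g) (Fin g) ℂ) (n : Fin g → ℤ) :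
    ‖weight u B n‖ = Real.exp (2 * Real.pi * ((∑ i, (n i : ℝ) * (u i).re) -
      (1 / 2) * ∑ i, ∑ j, (n i : ℝ) * (B.map Complex.re) i j * (n j : ℝ))) := by
  rw [weight, Complex.norm_exp]
  congr 1
  have h1 : ∀ i, ((n i : ℂ) * u i).re = (n i : ℝ) * (u i).re := by
    intro i
    rw [← Complex.ofReal_intCast, Complex.re_ofReal_mul]
  have h2 : ∀ i j, ((n i : ℂ) * B i j * (n j : ℂ)).re =
      (n i : ℝ) * (B.map Complex.re) i j * (n j : ℝ) := by
    intro i j
    rw [← Complex.ofReal_intCast, ← Complex.ofReal_intCast, Complex.re_mul_ofReal,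
      Complex.re_ofReal_mul, Matrix.map_apply]
  have h3 : (2 * (Real.pi : ℂ)) = ((2 * Real.pi : ℝ) : ℂ) := by push_cast; ring
  have h4 : (1 / 2 : ℂ) = ((1 / 2 : ℝ) : ℂ) := by push_cast; ring
  rw [h3, h4, Complex.re_ofReal_mul, Complex.sub_re, Complex.re_ofReal_mul, Complex.re_sum,
    Complex.re_sum]
  simp only [Complex.re_sum, h1, h2]

/-- the weights decay faster than every exponential -/
theorem weight_bound {B : Matrix (Fin g) (Fin g) ℂ} (hB : IsParameter B) (u : Fin g → ℂ)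
    (C : ℝ) : ∃ K : ℝ, ∀ n, Real.exp (C * nm n) * ‖weight u B n‖ ≤ K * Real.exp (-nm n) := by
  obtain ⟨ε, hε, h⟩ := form_bound hB.2
  set U : ℝ := ∑ i, |(u i).re| with hU
  have hU0 : 0 ≤ U := sum_nonneg fun _ _ => abs_nonneg _
  set E : ℝ := |C| + 1 + 2 * Real.pi * U with hE
  have hpi := Real.pi_pos
  refine ⟨Real.exp (E ^ 2 / (4 * (Real.pi * ε))), fun n => ?_⟩
  rw [norm_weight, ← Real.exp_add, ← Real.exp_add]
  apply Real.exp_le_exp.2
  have h1 := h (fun i => (n i : ℝ))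
  have h2 : ∑ i, (n i : ℝ) * (u i).re ≤ nm n * U := by
    calc ∑ i, (n i : ℝ) * (u i).re ≤ ∑ i, |(n i : ℝ)| * U := by
          refine sum_le_sum fun i _ => ?_
          calc (n i : ℝ) * (u i).re ≤ |(n i : ℝ) * (u i).re| := le_abs_self _
            _ = |(n i : ℝ)| * |(u i).re| := abs_mul _ _
            _ ≤ |(n i : ℝ)| * U := by
              refine mul_le_mul_of_nonneg_left ?_ (abs_nonneg _)
              exact single_le_sum (f := fun i => |(u i).re|) (fun _ _ => abs_nonneg _)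
                (mem_univ i)
      _ = nm n * U := by rw [← sum_mul]; rfl
  have h3 := nm_nonneg n
  have h4 : C * nm n ≤ |C| * nm n := mul_le_mul_of_nonneg_right (le_abs_self C) h3
  have h5 : ε * nm n ^ 2 ≤ ∑ i, ∑ j, (n i : ℝ) * (B.map Complex.re) i j * (n j : ℝ) := h1
  generalize ∑ i, ∑ j, (n i : ℝ) * (B.map Complex.re) i j * (n j : ℝ) = q at h5
  generalize ∑ i, (n i : ℝ) * (u i).re = s at h2
  have h6 : 0 ≤ (E - 2 * (Real.pi * ε) * nm n) ^ 2 / (4 * (Real.pi * ε)) := by positivity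
  have h7 : (E - 2 * (Real.pi * ε) * nm n) ^ 2 / (4 * (Real.pi * ε)) =
      E ^ 2 / (4 * (Real.pi * ε)) - E * nm n + Real.pi * ε * nm n ^ 2 := by
    field_simp
    ring
  rw [h7] at h6
  have h8 : 2 * Real.pi * (s - 1 / 2 * q) ≤ 2 * Real.pi * (nm n * U) - Real.pi * (ε * nm n ^ 2) := by
    have := mul_le_mul_of_nonneg_left h2 (by positivity : (0 : ℝ) ≤ 2 * Real.pi)
    have := mul_le_mul_of_nonneg_left h5 hpi.le
    linarith
  have h9 : E * nm n = |C| * nm n + nm n + 2 * Real.pi * (nm n * U) := by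
    rw [hE]
    ring
  linarith

theorem summable_exp_weight {B : Matrix (Fin g) (Fin g) ℂ} (hB : IsParameter B) (u : Fin g → ℂ)
    (C : ℝ) : Summable (fun n => Real.exp (C * nm n) * ‖weight u B n‖) := by
  obtain ⟨K, hK⟩ := weight_bound hB u C
  exact Summable.of_nonneg_of_le (fun n => by positivity) hK (summable_nm.mul_left K)

lemma abs_le_nm (n : Fin g → ℤ) (i : Fin g) : |(n i : ℝ)| ≤ nm n :=
  single_le_sum (f := fun i => |(n i : ℝ)|) (fun _ _ => abs_nonneg _) (mem_univ i)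

lemma norm_prod_le (n : Fin g → ℤ) (α : Fin g → ℕ) :
    ‖∏ i, (n i : ℂ) ^ α i‖ ≤ ((∑ i, α i).factorial : ℝ) * Real.exp (nm n) := by
  have h1 : ‖∏ i, (n i : ℂ) ^ α i‖ ≤ nm n ^ (∑ i, α i) := by
    rw [norm_prod, ← prod_pow_eq_pow_sum]
    refine prod_le_prod (fun _ _ => norm_nonneg _) fun i _ => ?_
    rw [norm_pow, Complex.norm_intCast]
    exact pow_le_pow_left₀ (abs_nonneg _) (abs_le_nm n i) _
  refine h1.trans ?_
  have h2 := Real.pow_div_factorial_le_exp (nm n) (nm_nonneg n) (∑ i, α i)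
  rw [div_le_iff₀ (by positivity)] at h2
  linarith

/-- the moments converge absolutely -/
theorem summable_moment {B : Matrix (Fin g) (Fin g) ℂ} (hB : IsParameter B) (u : Fin g → ℂ)
    (α : Fin g → ℕ) : Summable (fun n => ‖(∏ i, (n i : ℂ) ^ α i) * weight u B n‖) := by
  have h := (summable_exp_weight hB u 1).mul_left ((∑ i, α i).factorial : ℝ)
  refine Summable.of_nonneg_of_le (fun n => norm_nonneg _) (fun n => ?_) h
  rw [norm_mul, one_mul, ← mul_assoc]
  exact mul_le_mul_of_nonneg_right (norm_prod_le n α) (norm_nonneg _)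

end Pool.Agent.U161.DG
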