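import Pool.Agent.U161.DG.Alg
import Pool.Agent.U161.DG.Sum

set_option autoImplicit false

/-!
# The parallelogram identity and the relations for the moments

Helper file for `MP_e16cda_ag`, Q2.
-/

open Finset

namespace Pool.Agent.U161.DG

variable {g : ℕ}

/-- the factor depending on `n + m` -/
noncomputable def facA (u : Fin g → ℂ) (B : Matrix (Fin g) (Fin g) ℂ) (k : Fin g → ℤ) : ℂ :=
  Complex.exp (2 * Real.pi *
    ((∑ i, (k i : ℂ) * u i) - (1 / 4) * ∑ i, ∑ j, (k i : ℂ) * B i j * (k j : ℂ)))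

/-- the factor depending on `n - m` -/
noncomputable def facB (B : Matrix (Fin g) (Fin g) ℂ) (l : Fin g → ℤ) : ℂ :=
  Complex.exp (2 * Real.pi * (- ((1 / 4) * ∑ i, ∑ j, (l i : ℂ) * B i j * (l j : ℂ))))

theorem weight_mul (u : Fin g → ℂ) (B : Matrix (Fin g) (Fin g) ℂ) (n m : Fin g → ℤ) :
    weight u B n * weight u B m = facA u B (n + m) * facB B (n - m) := by
  rw [weight, weight, facA, facB, ← Complex.exp_add, ← Complex.exp_add]
  congr 1
  have h1 : ∑ i, ((n + m) i : ℂ) * u i = ∑ i, (n i : ℂ) * u i + ∑ i, (m i : ℂ) * u i := by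
    rw [← sum_add_distrib]
    refine sum_congr rfl fun i _ => ?_
    rw [Pi.add_apply]
    push_cast
    ring
  have h2 : ∑ i, ∑ j, ((n + m) i : ℂ) * B i j * ((n + m) j : ℂ) +
      ∑ i, ∑ j, ((n - m) i : ℂ) * B i j * ((n - m) j : ℂ) =
      2 * (∑ i, ∑ j, (n i : ℂ) * B i j * (n j : ℂ)) +
      2 * (∑ i, ∑ j, (m i : ℂ) * B i j * (m j : ℂ)) := by
    simp only [mul_sum, ← sum_add_distrib]
    refine sum_congr rfl fun i _ => sum_congr rfl fun j _ => ?_
    rw [Pi.add_apply, Pi.add_apply, Pi.sub_apply, Pi.sub_apply]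
    push_cast
    ring
  rw [h1]
  linear_combination ((1 / 2 : ℂ) * Real.pi) * h2

/-- the sum over the pairs `(n, m)` with `n + m = k` -/
noncomputable def fib (B : Matrix (Fin g) (Fin g) ℂ) (i : Fin g) (j : ℕ) (k : Fin g → ℤ) : ℂ :=
  ∑' n : Fin g → ℤ, ((2 * n i - k i : ℤ) : ℂ) ^ (2 * j) * facB B (2 * n - k)

theorem fib_periodic (B : Matrix (Fin g) (Fin g) ℂ) (i : Fin g) (j : ℕ) (k v : Fin g → ℤ) :
    fib B i j (k + 2 * v) = fib B i j k := by
  unfold fib
  rw [← (Equiv.addRight v).tsum_eq]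
  refine tsum_congr fun n => ?_
  have h1 : 2 * (Equiv.addRight v) n - (k + 2 * v) = 2 * n - k := by
    rw [Equiv.coe_addRight]
    ring
  rw [h1]
  congr 2
  have h2 := congrFun h1 i
  simpa using congrArg (fun z : ℤ => (z : ℂ)) h2

/-- the parity vector -/
def par (ε : Fin g → Fin 2) : Fin g → ℤ := fun i => (ε i : ℕ)

theorem exists_par (k : Fin g → ℤ) : ∃ (ε : Fin g → Fin 2) (v : Fin g → ℤ), k = par ε + 2 * v := by
  refine ⟨fun i => ⟨(k i % 2).toNat, by have := Int.emod_lt_of_pos (k i) two_pos; omega⟩,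
    fun i => k i / 2, ?_⟩
  funext i
  have h1 := Int.emod_add_mul_ediv (k i) 2
  have h2 := Int.emod_nonneg (k i) two_ne_zero
  simp only [par, Pi.add_apply, Pi.mul_apply, Pi.ofNat_apply]
  omega

/-- There is a linear relation between the functions `fib B i j`, `j ≤ 2 ^ g`. -/
theorem exists_rel (B : Matrix (Fin g) (Fin g) ℂ) (i : Fin g) :
    ∃ c : Fin (2 ^ g + 1) → ℂ, (∃ j, c j ≠ 0) ∧ ∀ k, ∑ j, c j * fib B i j k = 0 := by
  have h : ¬ LinearIndependent ℂ
      (fun (j : Fin (2 ^ g + 1)) (ε : Fin g → Fin 2) => fib B i j (par ε)) := by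
    intro h
    have h1 := h.fintype_card_le_finrank
    rw [Module.finrank_fintype_fun_eq_card] at h1
    simp at h1
  rw [Fintype.not_linearIndependent_iff] at h
  obtain ⟨c, hc, j, hj⟩ := h
  refine ⟨c, ⟨j, hj⟩, fun k => ?_⟩
  obtain ⟨ε, v, rfl⟩ := exists_par k
  have h1 := congrFun hc ε
  simp only [Finset.sum_apply, Pi.smul_apply, smul_eq_mul, Pi.zero_apply] at h1
  simp only [fib_periodic]
  exact h1

/-- unnormalised moments -/
noncomputable def W (u : Fin g → ℂ) (B : Matrix (Fin g) (Fin g) ℂ) (α : Fin g → ℕ) : ℂ :=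
  ∑' n : Fin g → ℤ, (∏ i, (n i : ℂ) ^ α i) * weight u B n

theorem expand (n m : Fin g → ℤ) (i : Fin g) (j : ℕ) (γ : Fin g → ℕ) :
    (∏ k, ((n k : ℂ) + m k) ^ γ k) * ((n i : ℂ) - m i) ^ (2 * j) =
    ∑ a ∈ Fintype.piFinset (fun k => range (γ k + 1)), ∑ b ∈ range (2 * j + 1),
    ((∏ k, (γ k).choose (a k) : ℕ) : ℂ) * ((2 * j).choose b : ℕ) * (-1) ^ (2 * j - b) *
      (∏ k, (n k : ℂ) ^ (a + Pi.single i b : Fin g → ℕ) k) *
      (∏ k, (m k : ℂ) ^ (γ - a + Pi.single i (2 * j - b) : Fin g → ℕ) k) := by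
  have h1 : ∏ k, ((n k : ℂ) + m k) ^ γ k = ∑ a ∈ Fintype.piFinset (fun k => range (γ k + 1)),
      ∏ k, ((n k : ℂ) ^ a k * (m k : ℂ) ^ (γ k - a k) * (γ k).choose (a k)) := by
    rw [prod_congr rfl fun k _ => add_pow (n k : ℂ) (m k) (γ k)]
    exact prod_univ_sum _ _
  have h2 : ((n i : ℂ) - m i) ^ (2 * j) = ∑ b ∈ range (2 * j + 1),
      (n i : ℂ) ^ b * (-(m i : ℂ)) ^ (2 * j - b) * (2 * j).choose b := by
    rw [sub_eq_add_neg, add_pow]
  rw [h1, h2, sum_mul_sum]
  refine sum_congr rfl fun a _ => sum_congr rfl fun b _ => ?_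
  have h3 : ∀ (x : Fin g → ℂ) (β : Fin g → ℕ) (c : ℕ),
      ∏ k, x k ^ (β + Pi.single i c : Fin g → ℕ) k = (∏ k, x k ^ β k) * x i ^ c := by
    intro x β c
    simp only [Pi.add_apply, pow_add, prod_mul_distrib]
    congr 1
    rw [prod_eq_single i]
    · rw [Pi.single_eq_same]
    · intro k _ hk
      rw [Pi.single_eq_of_ne hk, pow_zero]
    · intro h
      exact absurd (mem_univ i) h
  rw [h3 (fun k => (n k : ℂ)), h3 (fun k => (m k : ℂ)), prod_mul_distrib, prod_mul_distrib,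
    neg_pow (m i : ℂ)]
  simp only [Pi.sub_apply]
  push_cast
  ring

theorem hasSum_pair {B : Matrix (Fin g) (Fin g) ℂ} (hB : IsParameter B) (u : Fin g → ℂ)
    (α β : Fin g → ℕ) :
    HasSum (fun x : (Fin g → ℤ) × (Fin g → ℤ) =>
      ((∏ k, (x.1 k : ℂ) ^ α k) * weight u B x.1) * ((∏ k, (x.2 k : ℂ) ^ β k) * weight u B x.2))
      (W u B α * W u B β) := by
  have h1 := summable_moment hB u α
  have h2 := summable_moment hB u β
  have h3 := summable_mul_of_summable_norm h1 h2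
  have h4 := tsum_mul_tsum_of_summable_norm h1 h2
  unfold W
  rw [h4]
  exact h3.hasSum

/-- the value of `T` on the unnormalised moments as a double sum -/
theorem hasSum_T {B : Matrix (Fin g) (Fin g) ℂ} (hB : IsParameter B) (u : Fin g → ℂ)
    (i : Fin g) (j : ℕ) (γ : Fin g → ℕ) :
    HasSum (fun x : (Fin g → ℤ) × (Fin g → ℤ) =>
      (∏ k, ((x.1 k : ℂ) + x.2 k) ^ γ k) * ((x.1 i : ℂ) - x.2 i) ^ (2 * j) *
        (weight u B x.1 * weight u B x.2)) (T (W u B) i j γ) := by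
  have h : HasSum (fun x : (Fin g → ℤ) × (Fin g → ℤ) =>
      ∑ a ∈ Fintype.piFinset (fun k => range (γ k + 1)), ∑ b ∈ range (2 * j + 1),
      ((∏ k, (γ k).choose (a k) : ℕ) : ℂ) * ((2 * j).choose b : ℕ) * (-1) ^ (2 * j - b) *
      (((∏ k, (x.1 k : ℂ) ^ (a + Pi.single i b : Fin g → ℕ) k) * weight u B x.1) *
      ((∏ k, (x.2 k : ℂ) ^ (γ - a + Pi.single i (2 * j - b) : Fin g → ℕ) k) * weight u B x.2)))
      (T (W u B) i j γ) := by
    unfold T
    refine hasSum_sum fun a _ => hasSum_sum fun b _ => ?_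
    have h := (hasSum_pair hB u (a + Pi.single i b) (γ - a + Pi.single i (2 * j - b))).mul_left
      (((∏ k, (γ k).choose (a k) : ℕ) : ℂ) * ((2 * j).choose b : ℕ) * (-1) ^ (2 * j - b))
    rw [← mul_assoc] at h
    exact h
  refine h.congr_fun ?_
  intro x
  rw [expand, sum_mul]
  refine sum_congr rfl fun a _ => ?_
  rw [sum_mul]
  refine sum_congr rfl fun b _ => ?_
  ring

/-- the change of variables `(n, m) ↦ (n + m, n)` -/
def eqv : (Fin g → ℤ) × (Fin g → ℤ) ≃ (Fin g → ℤ) × (Fin g → ℤ) where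
  toFun y := (y.2, y.1 - y.2)
  invFun x := (x.1 + x.2, x.1)
  left_inv y := by simp
  right_inv x := by simp

theorem sum_fib {B : Matrix (Fin g) (Fin g) ℂ} (hB : IsParameter B) (u : Fin g → ℂ)
    (i : Fin g) (j : ℕ) (γ : Fin g → ℕ) :
    HasSum (fun k : Fin g → ℤ => (∏ l, (k l : ℂ) ^ γ l) * facA u B k * fib B i j k)
      (T (W u B) i j γ) := by
  have h := hasSum_T hB u i j γ
  rw [← eqv.hasSum_iff] at h
  have h2 : ∀ y : (Fin g → ℤ) × (Fin g → ℤ),
      ((fun x : (Fin g → ℤ) × (Fin g → ℤ) =>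
      (∏ k, ((x.1 k : ℂ) + x.2 k) ^ γ k) * ((x.1 i : ℂ) - x.2 i) ^ (2 * j) *
        (weight u B x.1 * weight u B x.2)) ∘ eqv) y =
      (∏ l, (y.1 l : ℂ) ^ γ l) * facA u B y.1 *
        (((2 * y.2 i - y.1 i : ℤ) : ℂ) ^ (2 * j) * facB B (2 * y.2 - y.1)) := by
    rintro ⟨k, n⟩
    simp only [Function.comp_apply, eqv, Equiv.coe_fn_mk]
    rw [weight_mul]
    have e1 : n + (k - n) = k := by ring
    have e2 : n - (k - n) = 2 * n - k := by ring
    rw [e1, e2]
    have e3 : ∏ l, ((n l : ℂ) + ((k - n) l : ℤ)) ^ γ l = ∏ l, (k l : ℂ) ^ γ l := by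
      refine prod_congr rfl fun l _ => ?_
      rw [Pi.sub_apply]
      push_cast
      ring
    have e4 : (n i : ℂ) - ((k - n) i : ℤ) = ((2 * n i - k i : ℤ) : ℂ) := by
      rw [Pi.sub_apply]
      push_cast
      ring
    rw [e3, e4]
    ring
  have h3 := h.congr_fun fun y => (h2 y).symm
  have h4 := h3.summable
  have h5 : ∀ k : Fin g → ℤ, HasSum (fun n : Fin g → ℤ => (∏ l, (k l : ℂ) ^ γ l) * facA u B k *
      (((2 * n i - k i : ℤ) : ℂ) ^ (2 * j) * facB B (2 * n - k)))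
      ((∏ l, (k l : ℂ) ^ γ l) * facA u B k * fib B i j k) := by
    intro k
    have h6 := (h4.prod_factor k).hasSum
    simp only at h6
    rw [tsum_mul_left] at h6
    exact h6
  exact h3.prod_fiberwise h5

theorem rel_W {B : Matrix (Fin g) (Fin g) ℂ} (hB : IsParameter B) (u : Fin g → ℂ)
    (i : Fin g) {N : ℕ} {c : Fin N → ℂ} (hc : ∀ k, ∑ j, c j * fib B i j k = 0)
    (γ : Fin g → ℕ) : ∑ j : Fin N, c j * T (W u B) i j γ = 0 := by
  have h1 : HasSum (fun k : Fin g → ℤ => ∑ j : Fin N, c j *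
      ((∏ l, (k l : ℂ) ^ γ l) * facA u B k * fib B i j k)) (∑ j : Fin N, c j * T (W u B) i j γ) :=
    hasSum_sum fun j _ => (sum_fib hB u i j γ).mul_left _
  have h2 : ∀ k : Fin g → ℤ, ∑ j : Fin N, c j *
      ((∏ l, (k l : ℂ) ^ γ l) * facA u B k * fib B i j k) = 0 := by
    intro k
    have h3 := hc k
    calc ∑ j : Fin N, c j * ((∏ l, (k l : ℂ) ^ γ l) * facA u B k * fib B i j k) =
        (∏ l, (k l : ℂ) ^ γ l) * facA u B k * ∑ j : Fin N, c j * fib B i j k := by
          rw [mul_sum]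
          exact sum_congr rfl fun j _ => by ring
      _ = 0 := by rw [h3, mul_zero]
  simp only [h2] at h1
  exact h1.unique hasSum_zero

theorem moment_eq (u : Fin g → ℂ) (B : Matrix (Fin g) (Fin g) ℂ) (α : Fin g → ℕ) :
    moment u B α = (theta u B)⁻¹ * W u B α := by
  unfold moment gaussian W
  rw [← tsum_mul_left]
  exact tsum_congr fun n => by rw [div_eq_mul_inv]; ring

theorem T_smul (t : ℂ) (m : (Fin g → ℕ) → ℂ) (i : Fin g) (j : ℕ) (γ : Fin g → ℕ) :
    T (fun α => t * m α) i j γ = t ^ 2 * T m i j γ := by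
  unfold T
  rw [mul_sum]
  refine sum_congr rfl fun a _ => ?_
  rw [mul_sum]
  exact sum_congr rfl fun b _ => by ring

theorem moment_zero {u : Fin g → ℂ} {B : Matrix (Fin g) (Fin g) ℂ} (h : theta u B ≠ 0) :
    moment u B 0 = 1 := by
  rw [moment_eq]
  have : W u B 0 = theta u B := by
    unfold W theta
    exact tsum_congr fun n => by simp
  rw [this, inv_mul_cancel₀ h]

theorem T_zero {A : Type*} [CommRing A] (m : (Fin g → ℕ) → A) (i : Fin g) (h0 : m 0 = 1) :
    T m i 0 0 = 1 := by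
  unfold T
  have h1 : Fintype.piFinset (fun k : Fin g => range ((0 : Fin g → ℕ) k + 1)) = {0} := by
    ext a
    rw [mem_pi, mem_singleton]
    constructor
    · intro h
      funext k
      exact Nat.le_zero.1 (h k)
    · rintro rfl
      exact le_rfl
  rw [h1, sum_singleton]
  simp [h0]

/-- The moments satisfy relations of size at most `2 ^ g`. -/
theorem exists_relations {u : Fin g → ℂ} {B : Matrix (Fin g) (Fin g) ℂ} (hB : IsParameter B)
    (h : theta u B ≠ 0) : ∃ (J : Fin g → ℕ) (c : (i : Fin g) → Fin (J i) → ℂ),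
      (∀ i, 0 < J i ∧ J i ≤ 2 ^ g) ∧ Rel J (moment u B) c := by
  classical
  have key : ∀ i : Fin g, ∃ (J : ℕ) (c : Fin J → ℂ), (0 < J ∧ J ≤ 2 ^ g) ∧
      ∀ γ, T (moment u B) i J γ + ∑ j : Fin J, c j * T (moment u B) i j γ = 0 := by
    intro i
    obtain ⟨c, ⟨j₀, hj₀⟩, hc⟩ := exists_rel B i
    have hrel : ∀ γ, ∑ j : Fin (2 ^ g + 1), c j * T (moment u B) i j γ = 0 := by
      intro γ
      have h1 := rel_W hB u i hc γ
      have h2 : ∀ j, T (moment u B) i j γ = (theta u B)⁻¹ ^ 2 * T (W u B) i j γ := by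
        intro j
        rw [← T_smul]
        congr 1
        funext α
        exact moment_eq u B α
      simp only [h2]
      calc ∑ j : Fin (2 ^ g + 1), c j * ((theta u B)⁻¹ ^ 2 * T (W u B) i j γ) =
          (theta u B)⁻¹ ^ 2 * ∑ j : Fin (2 ^ g + 1), c j * T (W u B) i j γ := by
            rw [mul_sum]
            exact sum_congr rfl fun j _ => by ring
        _ = 0 := by rw [h1, mul_zero]
    -- the largest index with a nonzero coefficient
    have hne : (univ.filter fun j => c j ≠ 0).Nonempty := ⟨j₀, by simp [hj₀]⟩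
    obtain ⟨J, hJ, hmax⟩ := exists_max_image _ (fun j : Fin (2 ^ g + 1) => (j : ℕ)) hne
    have hJc : c J ≠ 0 := (mem_filter.1 hJ).2
    have hzero : ∀ j : Fin (2 ^ g + 1), (J : ℕ) < j → c j = 0 := by
      intro j hj
      by_contra hcon
      have := hmax j (mem_filter.2 ⟨mem_univ _, hcon⟩)
      omega
    -- the sum up to `J`
    have hsum : ∀ γ, c J * T (moment u B) i J γ +
        ∑ j : Fin (J : ℕ), c ⟨j, by omega⟩ * T (moment u B) i j γ = 0 := by
      intro γ
      have h1 := hrel γ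
      have h2 : ∑ j : Fin (2 ^ g + 1), c j * T (moment u B) i j γ =
          ∑ j ∈ range (2 ^ g + 1), (if h : j < 2 ^ g + 1 then c ⟨j, h⟩ else 0) *
            T (moment u B) i j γ := by
        rw [← Fin.sum_univ_eq_sum_range
          (fun j => (if h : j < 2 ^ g + 1 then c ⟨j, h⟩ else 0) * T (moment u B) i j γ)]
        refine sum_congr rfl fun j _ => ?_
        rw [dif_pos j.2]
      rw [h2] at h1
      have h3 : ∑ j ∈ range (2 ^ g + 1), (if h : j < 2 ^ g + 1 then c ⟨j, h⟩ else 0) *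
            T (moment u B) i j γ = ∑ j ∈ range ((J : ℕ) + 1),
            (if h : j < 2 ^ g + 1 then c ⟨j, h⟩ else 0) * T (moment u B) i j γ := by
        symm
        apply sum_subset
        · intro j hj
          rw [mem_range] at hj ⊢
          have := J.2
          omega
        · intro j hj hj2
          rw [mem_range] at hj hj2
          rw [dif_pos hj, hzero ⟨j, hj⟩ (by simpa using hj2), zero_mul]
      rw [h3, sum_range_succ, dif_pos J.2, ← Fin.sum_univ_eq_sum_range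
          (fun j => (if h : j < 2 ^ g + 1 then c ⟨j, h⟩ else 0) * T (moment u B) i j γ)] at h1
      rw [← h1, add_comm]
      congr 1
      refine sum_congr rfl fun j _ => ?_
      rw [dif_pos]
    have hJpos : 0 < (J : ℕ) := by
      rcases Nat.eq_zero_or_pos (J : ℕ) with h0 | h0
      · exfalso
        have h1 := hsum 0
        have h2 : ∑ j : Fin (J : ℕ), c ⟨j, by omega⟩ * T (moment u B) i j 0 = 0 := by
          apply sum_eq_zero
          intro j
          have := j.2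
          omega
        rw [h2, add_zero, h0, T_zero _ _ (moment_zero h), mul_one] at h1
        exact hJc h1
      · exact h0
    refine ⟨J, fun j => (c J)⁻¹ * c ⟨j, by omega⟩, ⟨hJpos, by have := J.2; omega⟩, fun γ => ?_⟩
    have h1 := hsum γ
    have h2 : (c J)⁻¹ * (c J * T (moment u B) i J γ +
        ∑ j : Fin (J : ℕ), c ⟨j, by omega⟩ * T (moment u B) i j γ) = 0 := by
      rw [h1, mul_zero]
    rw [mul_add, ← mul_assoc, inv_mul_cancel₀ hJc, one_mul, mul_sum] at h2
    rw [← h2]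
    congr 1
    exact sum_congr rfl fun j _ => by ring
  choose J c hJ hrel using key
  exact ⟨J, c, hJ, moment_zero h, hrel⟩

end Pool.Agent.U161.DG
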